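import Pool.Agent.H59.L.S8.W586.SK.Stm

/-! # Project SK: properties of the explicit vector field (S_FIELD) -/

set_option autoImplicit false

namespace Pool.Agent.W923.SKF

open MeasureTheory Set
open Pool.Agent.W586.SK

lemma hd_sq (u : ℝ) : HasDerivAt (fun u : ℝ => (max u 0) ^ 2) (2 * max u 0) u := by
  rcases lt_trichotomy u 0 with h | h | h
  · have h1 : (fun u : ℝ => (max u 0) ^ 2) =ᶠ[nhds u] fun _ => 0 := by
      filter_upwards [Iio_mem_nhds h] with v hv
      rw [max_eq_right (le_of_lt hv)]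
      norm_num
    rw [max_eq_right h.le, mul_zero]
    exact (hasDerivAt_const u (0 : ℝ)).congr_of_eventuallyEq h1
  · subst h
    have h1 : HasDerivWithinAt (fun u : ℝ => (max u 0) ^ 2) 0 (Iic 0) 0 := by
      refine (hasDerivWithinAt_const (0 : ℝ) (Iic 0) (0 : ℝ)).congr ?_ ?_
      · intro v hv
        rw [max_eq_right hv]
        norm_num
      · norm_num
    have h2 : HasDerivWithinAt (fun u : ℝ => (max u 0) ^ 2) 0 (Ici 0) 0 := by
      have h3 : HasDerivWithinAt (fun u : ℝ => u ^ 2) 0 (Ici 0) 0 := by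
        have h4 := (hasDerivAt_pow 2 (0 : ℝ)).hasDerivWithinAt (s := Ici 0)
        simpa using h4
      refine h3.congr ?_ ?_
      · intro v hv
        rw [max_eq_left hv]
      · norm_num
    have h5 := h1.union h2
    rw [Iic_union_Ici, hasDerivWithinAt_univ] at h5
    simpa using h5
  · have h1 : (fun u : ℝ => (max u 0) ^ 2) =ᶠ[nhds u] fun u => u ^ 2 := by
      filter_upwards [Ioi_mem_nhds h] with v hv
      rw [max_eq_left (le_of_lt hv)]
    rw [max_eq_left h.le]
    have h2 : HasDerivAt (fun u : ℝ => u ^ 2) (2 * u) u := by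
      have h4 := hasDerivAt_pow 2 u
      simpa using h4
    exact h2.congr_of_eventuallyEq h1

lemma cd_sq : ContDiff ℝ 1 (fun u : ℝ => (max u 0) ^ 2) := by
  rw [contDiff_one_iff_deriv]
  refine ⟨fun u => (hd_sq u).differentiableAt, ?_⟩
  have : deriv (fun u : ℝ => (max u 0) ^ 2) = fun u => 2 * max u 0 :=
    funext fun u => (hd_sq u).deriv
  rw [this]
  fun_prop

/-- derivative of `tau` -/
noncomputable def dtau (R u : ℝ) : ℝ :=
  max (1 - u ^ 2 / R ^ 2) 0 * (max (1 - u ^ 2 / R ^ 2) 0 - 4 * (u ^ 2 / R ^ 2))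

lemma hd_tau (R u : ℝ) : HasDerivAt (tau R) (dtau R u) u := by
  have h1 : HasDerivAt (fun u : ℝ => 1 - u ^ 2 / R ^ 2) (-(2 * u / R ^ 2)) u := by
    have h2 : HasDerivAt (fun u : ℝ => u ^ 2) (2 * u) u := by
      have h4 := hasDerivAt_pow 2 u
      simpa using h4
    exact (h2.div_const (R ^ 2)).const_sub 1
  have h2' : HasDerivAt ((fun u : ℝ => (max u 0) ^ 2) ∘ (fun u : ℝ => 1 - u ^ 2 / R ^ 2))
      (2 * max (1 - u ^ 2 / R ^ 2) 0 * (-(2 * u / R ^ 2))) u :=
    HasDerivAt.comp u (hd_sq (1 - u ^ 2 / R ^ 2)) h1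
  have h2 : HasDerivAt (fun u : ℝ => (max (1 - u ^ 2 / R ^ 2) 0) ^ 2)
      (2 * max (1 - u ^ 2 / R ^ 2) 0 * (-(2 * u / R ^ 2))) u := h2'
  have h3 : HasDerivAt (fun u : ℝ => u * (max (1 - u ^ 2 / R ^ 2) 0) ^ 2)
      (1 * (max (1 - u ^ 2 / R ^ 2) 0) ^ 2 +
        u * (2 * max (1 - u ^ 2 / R ^ 2) 0 * (-(2 * u / R ^ 2)))) u :=
    (hasDerivAt_id' u).mul h2
  have h4 : dtau R u = 1 * (max (1 - u ^ 2 / R ^ 2) 0) ^ 2 +
        u * (2 * max (1 - u ^ 2 / R ^ 2) 0 * (-(2 * u / R ^ 2))) := by
    unfold dtau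
    ring
  rw [h4]
  exact h3

lemma cd_tau (R : ℝ) : ContDiff ℝ 1 (tau R) := by
  unfold tau
  have h1 : ContDiff ℝ 1 (fun u : ℝ => 1 - u ^ 2 / R ^ 2) :=
    contDiff_const.sub ((contDiff_id.pow 2).div_const _)
  exact contDiff_id.mul (cd_sq.comp h1)

lemma dtau_ge (R u : ℝ) (hR : 0 < R) : 1 - 6 * |u| / R ≤ dtau R u := by
  unfold dtau
  set v : ℝ := |u| / R with hv
  have hv0 : 0 ≤ v := by positivity
  have h1 : u ^ 2 / R ^ 2 = v ^ 2 := by
    rw [hv, div_pow, sq_abs]
  have h2 : 6 * |u| / R = 6 * v := by rw [hv]; ring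
  rw [h1, h2]
  rcases le_total v 1 with h | h
  · rw [max_eq_left (by nlinarith)]
    nlinarith [mul_nonneg hv0 (sub_nonneg.2 h), sq_nonneg (v ^ 2)]
  · rw [max_eq_right (by nlinarith)]
    linarith

lemma tau_le (R u : ℝ) (hR : 0 < R) : |tau R u| ≤ R / 3 := by
  unfold tau
  set v : ℝ := |u| / R with hv
  have hv0 : 0 ≤ v := by positivity
  have h1 : u ^ 2 / R ^ 2 = v ^ 2 := by
    rw [hv, div_pow, sq_abs]
  have h2 : |u| = R * v := by rw [hv]; field_simp
  rw [h1, abs_mul, h2, abs_of_nonneg (sq_nonneg _)]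
  rcases le_total v 1 with h | h
  · rw [max_eq_left (by nlinarith)]
    have h3 : v * (1 - v ^ 2) ^ 2 ≤ 1 / 3 := by
      have h4 : 0 ≤ 1 - v ^ 2 := by nlinarith
      have h5 : 1 - v ^ 2 ≤ 1 := by nlinarith
      have h6 : v * (1 - v ^ 2) ≤ 2 / 5 := by nlinarith [sq_nonneg (v - 3 / 5), sq_nonneg (v - 1 / 2), mul_nonneg hv0 (sq_nonneg (v - 3 / 5))]
      nlinarith [sq_nonneg (v - 9 / 20), sq_nonneg (v ^ 2 - 1 / 5), mul_nonneg hv0 h4,
        mul_nonneg hv0 (sq_nonneg (v ^ 2 - 1 / 5)), mul_nonneg hv0 (sq_nonneg (v - 9 / 20))]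
    nlinarith
  · rw [max_eq_right (by nlinarith)]
    have : 0 ≤ R / 3 := by positivity
    simpa using this

lemma chi_nonneg (R s : ℝ) : 0 ≤ chi R s := Real.smoothTransition.nonneg _
lemma chi_le (R s : ℝ) : chi R s ≤ 1 := Real.smoothTransition.le_one _
lemma chi_zero (R s : ℝ) (hR : 0 < R) (h : s ≤ R) : chi R s = 0 :=
  Real.smoothTransition.zero_of_nonpos (div_nonpos_of_nonpos_of_nonneg (by linarith) hR.le)
lemma chi_one (R s : ℝ) (hR : 0 < R) (h : 2 * R ≤ s) : chi R s = 1 := by
  refine Real.smoothTransition.one_of_one_le ?_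
  rw [le_div_iff₀ hR]
  linarith

lemma cd_chi (R : ℝ) : ContDiff ℝ 1 (chi R) := by
  unfold chi
  have h1 : ContDiff ℝ 1 (fun s : ℝ => (s - R) / R) :=
    (contDiff_id.sub contDiff_const).div_const _
  exact (Real.smoothTransition.contDiff (n := 1)).comp h1

lemma cd_psi (R : ℝ) : ContDiff ℝ 1 (psi R) := by
  unfold psi
  have h1 : ContDiff ℝ 1 (fun s : ℝ => -s / R) := contDiff_id.neg.div_const _
  exact contDiff_const.add (Real.contDiff_exp.comp h1)

lemma hd_psi (R s : ℝ) : HasDerivAt (psi R) (-(Real.exp (-s / R) / R)) s := by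
  unfold psi
  have h1 : HasDerivAt (fun s : ℝ => -s / R) (-1 / R) s := (hasDerivAt_id' s).neg.div_const R
  have h2 := (h1.exp).const_add 1
  have h3 : -(Real.exp (-s / R) / R) = Real.exp (-s / R) * (-1 / R) := by ring
  rw [h3]
  exact h2

lemma fw_apply {n : ℕ} (R : ℝ) (i : Fin n) (x : E n) (j : Fin n) :
    fw R i x j = if j = i then psi R (x i) else -(3 / (R * n) * chi R (x i) * tau R (x j)) := rfl

lemma cd_coord {n : ℕ} (j : Fin n) : ContDiff ℝ 1 (fun x : E n => x j) := by
  exact (EuclideanSpace.proj j : E n →L[ℝ] ℝ).contDiff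

lemma cd_comp {n : ℕ} (R : ℝ) (i j : Fin n) : ContDiff ℝ 1 (fun x : E n => fw R i x j) := by
  by_cases h : j = i
  · have : (fun x : E n => fw R i x j) = fun x => psi R (x i) := by
      funext x
      rw [fw_apply, if_pos h]
    rw [this]
    exact (cd_psi R).comp (cd_coord i)
  · have : (fun x : E n => fw R i x j) =
        fun x => -(3 / (R * n) * chi R (x i) * tau R (x j)) := by
      funext x
      rw [fw_apply, if_neg h]
    rw [this]
    exact ((contDiff_const.mul ((cd_chi R).comp (cd_coord i))).mul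
      ((cd_tau R).comp (cd_coord j))).neg

lemma cd_fw {n : ℕ} (R : ℝ) (i : Fin n) : ContDiff ℝ 1 (fw R i : E n → E n) := by
  rw [contDiff_euclidean]
  exact fun j => cd_comp R i j

lemma fderiv_comp {n : ℕ} (R : ℝ) (i k : Fin n) (x v : E n) :
    (fderiv ℝ (fw R i) x v) k = fderiv ℝ (fun y : E n => fw R i y k) x v := by
  have h1 : HasFDerivAt (fw R i) (fderiv ℝ (fw R i) x) x :=
    ((cd_fw R i).differentiable (by norm_num) x).hasFDerivAt
  have h2 := (EuclideanSpace.proj k : E n →L[ℝ] ℝ).hasFDerivAt.comp x h1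
  have h3 : fderiv ℝ (fun y : E n => fw R i y k) x =
      (EuclideanSpace.proj k : E n →L[ℝ] ℝ).comp (fderiv ℝ (fw R i) x) := h2.fderiv
  rw [h3]
  rfl

lemma line {n : ℕ} (g : E n → ℝ) (hg : ContDiff ℝ 1 g) (x v : E n) (c : ℝ)
    (h : HasDerivAt (fun t : ℝ => g (x + t • v)) c 0) : fderiv ℝ g x v = c := by
  have h1 : HasFDerivAt g (fderiv ℝ g x) x :=
    (hg.differentiable (by norm_num) x).hasFDerivAt
  exact (h1.hasLineDerivAt v).unique h

lemma term_i {n : ℕ} (R : ℝ) (i : Fin n) (x : E n) :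
    (fderiv ℝ (fw R i) x (EuclideanSpace.single i 1)) i = -(Real.exp (-x i / R) / R) := by
  rw [fderiv_comp]
  refine line _ (cd_comp R i i) _ _ _ ?_
  have h1 : (fun t : ℝ => fw R i (x + t • EuclideanSpace.single i (1 : ℝ)) i) =
      fun t => psi R (x i + t) := by
    funext t
    rw [fw_apply, if_pos rfl]
    simp
  rw [h1]
  have h2 : HasDerivAt (psi R) (-(Real.exp (-x i / R) / R)) (x i + 0) := by
    rw [add_zero]
    exact hd_psi R (x i)
  exact HasDerivAt.comp_const_add (x i) 0 h2

lemma term_k {n : ℕ} (R : ℝ) (i k : Fin n) (hk : k ≠ i) (x : E n) :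
    (fderiv ℝ (fw R i) x (EuclideanSpace.single k 1)) k =
      -(3 / (R * n) * chi R (x i) * dtau R (x k)) := by
  rw [fderiv_comp]
  refine line _ (cd_comp R i k) _ _ _ ?_
  have h1 : (fun t : ℝ => fw R i (x + t • EuclideanSpace.single k (1 : ℝ)) k) =
      fun t => -(3 / (R * n) * chi R (x i) * tau R (x k + t)) := by
    funext t
    rw [fw_apply, if_neg hk]
    have h3 : (x + t • EuclideanSpace.single k (1 : ℝ)) i = x i := by
      simp [hk.symm]
    have h4 : (x + t • EuclideanSpace.single k (1 : ℝ)) k = x k + t := by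
      simp
    rw [h3, h4]
  rw [h1]
  have h2 : HasDerivAt (tau R) (dtau R (x k)) (x k + 0) := by
    rw [add_zero]
    exact hd_tau R (x k)
  exact ((HasDerivAt.comp_const_add (x k) 0 h2).const_mul _).neg

lemma dv_fw {n : ℕ} (R : ℝ) (i : Fin n) (x : E n) :
    dv (fw R i) x = -(Real.exp (-x i / R) / R) +
      -(3 / (R * n) * chi R (x i) * ∑ k ∈ Finset.univ.erase i, dtau R (x k)) := by
  unfold dv
  rw [← Finset.add_sum_erase _ _ (Finset.mem_univ i), term_i]
  congr 1
  rw [Finset.mul_sum, ← Finset.sum_neg_distrib]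
  refine Finset.sum_congr rfl fun k hk => ?_
  exact term_k R i k (Finset.ne_of_mem_erase hk) x

theorem field : S_FIELD := by
  intro n i a ha
  refine ⟨cd_fw _ i, fun x hx => ?_⟩
  set R : ℝ := 24 * a with hRdef
  have hR : 0 < R := by rw [hRdef]; positivity
  have hn1 : 1 ≤ n := Nat.one_le_of_lt i.2
  have hn : (1 : ℝ) ≤ n := by exact_mod_cast hn1
  have hn0 : (0 : ℝ) < n := by linarith
  have hcard : ((Finset.univ.erase i).card : ℝ) = n - 1 := by
    rw [Finset.card_erase_of_mem (Finset.mem_univ i), Finset.card_univ, Fintype.card_fin,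
      Nat.cast_sub hn1, Nat.cast_one]
  have hco : 0 ≤ 3 / (R * n) := by positivity
  have hprod : ∀ j, 3 / (R * n) * chi R (x i) * |tau R (x j)| ≤ 1 / n := by
    intro j
    have h1 := tau_le R (x j) hR
    have h2 := chi_le R (x i)
    have h3 := chi_nonneg R (x i)
    calc 3 / (R * n) * chi R (x i) * |tau R (x j)| ≤ 3 / (R * n) * 1 * (R / 3) := by
          refine mul_le_mul (mul_le_mul_of_nonneg_left h2 hco) h1 (abs_nonneg _) (by positivity)
      _ = 1 / n := by field_simp
  have hpsi1 : 1 ≤ psi R (x i) := by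
    unfold psi
    have := (Real.exp_pos (-x i / R)).le
    linarith
  have hpsi2 : psi R (x i) ≤ 2 := by
    unfold psi
    have h1 : Real.exp (-x i / R) ≤ 1 := by
      rw [Real.exp_le_one_iff]
      exact div_nonpos_of_nonpos_of_nonneg (by linarith) hR.le
    linarith
  refine ⟨?_, ?_, ?_⟩
  · -- norm
    have h1 : ‖fw R i x‖ ^ 2 ≤ 5 := by
      rw [EuclideanSpace.norm_sq_eq, ← Finset.add_sum_erase _ _ (Finset.mem_univ i)]
      have h2 : ‖fw R i x i‖ ^ 2 ≤ 4 := by
        rw [fw_apply, if_pos rfl, Real.norm_eq_abs, sq_abs]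
        nlinarith
      have h3 : ∀ j ∈ Finset.univ.erase i, ‖fw R i x j‖ ^ 2 ≤ 1 / n := by
        intro j hj
        rw [fw_apply, if_neg (Finset.ne_of_mem_erase hj), Real.norm_eq_abs, abs_neg, abs_mul,
          abs_of_nonneg (mul_nonneg hco (chi_nonneg _ _))]
        have h4 := hprod j
        have h5 : 0 ≤ 3 / (R * n) * chi R (x i) * |tau R (x j)| :=
          mul_nonneg (mul_nonneg hco (chi_nonneg _ _)) (abs_nonneg _)
        have h6 : (1 : ℝ) / n ≤ 1 := by
          rw [div_le_one hn0]; exact hn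
        nlinarith
      have h4 := Finset.sum_le_sum h3
      rw [Finset.sum_const, nsmul_eq_mul, hcard] at h4
      have h5 : ((n : ℝ) - 1) * (1 / n) ≤ 1 := by
        rw [mul_one_div, div_le_one hn0]
        linarith
      linarith
    nlinarith [norm_nonneg (fw R i x)]
  · -- divergence
    intro hnm
    rw [dv_fw]
    have htar : -(1 / (192 * a)) = -(1 / 8 / R) := by
      rw [hRdef]
      field_simp
      norm_num
    rw [htar]
    have hxa : x i ≤ nm x := by
      unfold nm
      have h1 : |x i| ≤ ∑ j, |x j| :=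
        Finset.single_le_sum (f := fun j => |x j|) (fun j _ => abs_nonneg _) (Finset.mem_univ i)
      exact (le_abs_self _).trans h1
    rcases le_or_gt (x i) R with h | h
    · rw [chi_zero R (x i) hR h]
      have h1 : (1 / 8 : ℝ) ≤ Real.exp (-x i / R) := by
        have h2 : Real.exp (-1) ≤ Real.exp (-x i / R) := by
          refine Real.exp_le_exp.2 ?_
          rw [le_div_iff₀ hR]
          linarith
        have h3 : (1 / 8 : ℝ) ≤ Real.exp (-1) := by
          rw [Real.exp_neg, one_div]
          refine inv_anti₀ (Real.exp_pos 1) ?_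
          linarith [Real.exp_one_lt_d9]
        linarith
      have h4 : 1 / 8 / R ≤ Real.exp (-x i / R) / R := by gcongr
      simp only [mul_zero, zero_mul, neg_zero, add_zero]
      linarith
    · have hn24 : (24 : ℝ) < n := by
        have h1 : 24 * a < a * n := by
          have : R < a * n := by linarith
          linarith
        nlinarith
      have hsum : 3 * (n : ℝ) / 4 - 1 ≤ ∑ k ∈ Finset.univ.erase i, dtau R (x k) := by
        have h1 : ∑ k ∈ Finset.univ.erase i, (1 - 6 * |x k| / R) ≤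
            ∑ k ∈ Finset.univ.erase i, dtau R (x k) :=
          Finset.sum_le_sum fun k _ => dtau_ge R (x k) hR
        rw [Finset.sum_sub_distrib, Finset.sum_const, nsmul_eq_mul, hcard, mul_one] at h1
        have h2 : ∑ k ∈ Finset.univ.erase i, 6 * |x k| / R ≤ n / 4 := by
          have h3 : ∑ k ∈ Finset.univ.erase i, 6 * |x k| / R =
              6 / R * ∑ k ∈ Finset.univ.erase i, |x k| := by
            rw [Finset.mul_sum]
            exact Finset.sum_congr rfl fun k _ => by ring
          have h4 : ∑ k ∈ Finset.univ.erase i, |x k| ≤ nm x :=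
            Finset.sum_le_sum_of_subset_of_nonneg (Finset.erase_subset _ _)
              fun j _ _ => abs_nonneg _
          rw [h3]
          calc 6 / R * ∑ k ∈ Finset.univ.erase i, |x k| ≤ 6 / R * (a * n) := by
                exact mul_le_mul_of_nonneg_left (h4.trans hnm) (by positivity)
            _ = n / 4 := by
                rw [hRdef]
                field_simp
                norm_num
        linarith
      have hs0 : 0 ≤ ∑ k ∈ Finset.univ.erase i, dtau R (x k) := by linarith
      rcases le_or_gt (x i) (2 * R) with h' | h'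
      · have h1 : (1 / 8 : ℝ) ≤ Real.exp (-x i / R) := by
          have h2 : Real.exp (-2) ≤ Real.exp (-x i / R) := by
            refine Real.exp_le_exp.2 ?_
            rw [le_div_iff₀ hR]
            linarith
          have h3 : (1 / 8 : ℝ) ≤ Real.exp (-2) := by
            rw [Real.exp_neg, one_div]
            refine inv_anti₀ (Real.exp_pos 2) ?_
            have h5 : Real.exp 2 = Real.exp 1 * Real.exp 1 := by
              rw [← Real.exp_add]; norm_num
            rw [h5]
            have h6 := Real.exp_one_lt_d9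
            have h7 := Real.exp_pos 1
            nlinarith
          linarith
        have h4 : 1 / 8 / R ≤ Real.exp (-x i / R) / R := by gcongr
        have h5 : 0 ≤ 3 / (R * n) * chi R (x i) * ∑ k ∈ Finset.univ.erase i, dtau R (x k) :=
          mul_nonneg (mul_nonneg hco (chi_nonneg _ _)) hs0
        linarith
      · rw [chi_one R (x i) hR h'.le, mul_one]
        have h1 : 0 ≤ Real.exp (-x i / R) / R := by positivity
        have h2 : 3 / (R * n) * (3 * (n : ℝ) / 4 - 1) ≤
            3 / (R * n) * ∑ k ∈ Finset.univ.erase i, dtau R (x k) :=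
          mul_le_mul_of_nonneg_left hsum hco
        have h3 : 1 / 8 / R ≤ 3 / (R * n) * (3 * (n : ℝ) / 4 - 1) := by
          rw [div_mul_eq_mul_div, div_le_div_iff₀ hR (by positivity)]
          nlinarith
        linarith
  · -- coefficients
    refine ⟨fun j => 3 / (R * n) * chi R (x i) * (max (1 - x j ^ 2 / R ^ 2) 0) ^ 2,
      ?_, ?_, ?_, ?_⟩
    · intro j
      exact mul_nonneg (mul_nonneg hco (chi_nonneg _ _)) (sq_nonneg _)
    · intro j hj
      rw [fw_apply, if_neg hj]
      unfold tau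
      ring
    · intro j _ hc
      have h1 : R < x i := by
        by_contra h
        push Not at h
        refine hc ?_
        show 3 / (R * n) * chi R (x i) * (max (1 - x j ^ 2 / R ^ 2) 0) ^ 2 = 0
        rw [chi_zero R (x i) hR h]
        ring
      have h2 : |x j| ≤ R := by
        by_contra h
        push Not at h
        refine hc ?_
        show 3 / (R * n) * chi R (x i) * (max (1 - x j ^ 2 / R ^ 2) 0) ^ 2 = 0
        have h3 : 1 - x j ^ 2 / R ^ 2 ≤ 0 := by
          rw [sub_nonpos, one_le_div (by positivity)]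
          rw [← sq_abs (x j)]
          exact pow_le_pow_left₀ hR.le h.le 2
        rw [max_eq_right h3]
        ring
      linarith
    · have h1 : ∀ j ∈ Finset.univ.erase i,
          3 / (R * n) * chi R (x i) * (max (1 - x j ^ 2 / R ^ 2) 0) ^ 2 * |x j| ≤ 1 / n := by
        intro j _
        refine le_trans (le_of_eq ?_) (hprod j)
        have e : |tau R (x j)| = |x j| * (max (1 - x j ^ 2 / R ^ 2) 0) ^ 2 := by
          unfold tau
          rw [abs_mul]
          congr 1
          exact abs_of_nonneg (sq_nonneg _)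
        rw [e]
        ring
      have h2 := Finset.sum_le_sum h1
      rw [Finset.sum_const, nsmul_eq_mul, hcard] at h2
      have h5 : ((n : ℝ) - 1) * (1 / n) ≤ 1 := by
        rw [mul_one_div, div_le_one hn0]
        linarith
      rw [fw_apply, if_pos rfl]
      linarith

end Pool.Agent.W923.SKF

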